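import Mathlib

set_option autoImplicit false

namespace Pool.Agent.Results.MP_020c1a_co.Twist
open Matrix

/-- `p`-singular families. -/
def Singular {G : Type} [Group G] (p : ℕ) (F : Set G) : Prop :=
  ∀ g ∈ F, ∀ h ∈ F, g ≠ h → p ∣ orderOf (g * h⁻¹)

/-- Maximum `p`-singular families. -/
def Maximum {G : Type} [Group G] (p : ℕ) (F : Set G) : Prop :=
  Singular p F ∧ ∀ F' : Set G, Singular p F' → F'.ncard ≤ F.ncard

/-- Double-translates of Sylow `p`-subgroups. -/
def DoubleTranslate {G : Type} [Group G] (p : ℕ) (F : Set G) : Prop :=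
  ∃ (P : Sylow p G) (g h : G), F = (fun s => g * s * h) '' (P : Set G)

abbrev G : Type := GL (Fin 2) (ZMod 3)

def a : G := ⟨!![2, 2; 0, 2], !![2, 1; 0, 2], by decide, by decide⟩
def b : G := ⟨!![1, 2; 0, 1], !![1, 1; 0, 1], by decide, by decide⟩

theorem dv (x : G) (h : x ^ 6 = 1) (h2 : x ^ 2 ≠ 1) : 3 ∣ orderOf x := by
  have h1 := orderOf_dvd_of_pow_eq_one h
  have h3 : ¬ orderOf x ∣ 2 := fun h => h2 (orderOf_dvd_iff_pow_eq_one.1 h)
  have h4 : orderOf x ≤ 6 := Nat.le_of_dvd (by norm_num) h1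
  generalize orderOf x = k at *
  interval_cases k <;> simp_all

theorem sing : Singular 3 ({1, a, b} : Set G) := by
  rintro g (rfl | rfl | rfl) h (rfl | rfl | rfl) hne <;>
    first
    | exact absurd rfl hne
    | exact dv _ (by decide) (by decide)

theorem card3 : ({1, a, b} : Set G).ncard = 3 :=
  Set.ncard_eq_three.2 ⟨1, a, b, by decide, by decide, by decide, rfl⟩

theorem cardG : Nat.card G = 48 := by
  have : Fact (Nat.Prime 3) := ⟨by norm_num⟩
  rw [Matrix.card_GL_field]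
  simp [Fin.prod_univ_two]

theorem cardP (P : Sylow 3 G) : Nat.card P = 3 := by
  have : Fact (Nat.Prime 3) := ⟨by norm_num⟩
  rw [Sylow.card_eq_multiplicity, cardG]
  have : Nat.factorization 48 3 = 1 := by
    rw [show (48 : ℕ) = 3 * 16 from rfl, Nat.factorization_mul (by norm_num) (by norm_num)]
    simp [Nat.Prime.factorization_self Nat.prime_three, Nat.factorization_eq_zero_of_not_dvd]
  rw [this]; rfl

theorem notdt : ¬ DoubleTranslate 3 ({1, a, b} : Set G) := by
  rintro ⟨P, g, h, hP⟩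
  obtain ⟨s, hs, h1⟩ : (1 : G) ∈ (fun s => g * s * h) '' (P : Set G) := by rw [← hP]; simp
  obtain ⟨t, ht, h2⟩ : a ∈ (fun s => g * s * h) '' (P : Set G) := by rw [← hP]; simp
  have h3 : (⟨t * s⁻¹, P.1.mul_mem ht (P.1.inv_mem hs)⟩ : P.1) ^ 3 = 1 := by
    have := pow_card_eq_one' (x := (⟨t * s⁻¹, P.1.mul_mem ht (P.1.inv_mem hs)⟩ : P.1))
    rwa [show Nat.card P.1 = 3 from cardP P] at this
  have h4 : (t * s⁻¹) ^ 3 = 1 := congrArg Subtype.val h3
  have h5 : a = g * (t * s⁻¹) * g⁻¹ := by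
    have : a = a * (g * s * h)⁻¹ := by rw [show g * s * h = 1 from h1]; simp
    rw [this, ← h2]; group
  have h6 : a ^ 3 = 1 := by rw [h5, conj_pow, h4]; simp
  exact absurd h6 (by decide)

theorem result : ¬ ∀ (p : ℕ) (K : Type) [Field K] [Fintype K] [DecidableEq K], p.Prime → CharP K p →
    ∀ n : ℕ, 2 ≤ n → ∀ F : Set (GL (Fin n) K), Maximum p F ↔ DoubleTranslate p F := by
  intro h
  have : Fact (Nat.Prime 3) := ⟨by norm_num⟩
  have h1 := h 3 (ZMod 3) Nat.prime_three inferInstance 2 le_rfl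
  let P : Sylow 3 G := default
  have h2 := (h1 (P : Set G)).2 ⟨P, 1, 1, by simp⟩
  refine notdt ((h1 _).1 ⟨sing, fun F' hF => (h2.2 F' hF).trans ?_⟩)
  rw [card3]
  exact le_of_eq ((Nat.card_coe_set_eq _).symm.trans (cardP P))

end Pool.Agent.Results.MP_020c1a_co.Twist
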